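import Pool.Agent.Lib.MP_e005b4_ag.TangentDegenerate
import Pool.Agent.Lib.MP_e005b4_ag.Ranks

/-!
# Curves whose points of border rank two have rank two

A nondegenerate irreducible projective curve in a projective space of dimension at least four, all
of whose points of border rank two have rank two, is tangentially degenerate: the tangent line at
a general point meets the curve in a further point.
-/

namespace Pool.Agent.Results.MP_e005b4_ag.CurvesTangent

open Pool.Agent.Lib.MP_e005b4_ag
open scoped LinearAlgebra.Projectivization

/-- Let `X` be an irreducible projective curve spanning a projective space of dimension `n ≥ 4`.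
If every point of `X`-border rank two has `X`-rank two, then for all but finitely many points `p`
of `X` the embedded tangent space of `X` at `p` contains a point of `X` different from `p`. -/
theorem result (n : ℕ) (hn : 4 ≤ n) (X : Set (PSpace (Fin (n + 1)))) (hX : IsProjectiveCurve X)
    (hsp : Spans X) (hrank : ∀ p : PSpace (Fin (n + 1)), xBorderRank X p = 2 → xRank X p = 2) :
    {p ∈ X | ¬ ∃ q ∈ X, q ≠ p ∧ q.submodule ≤ tangentSpace X p}.Finite :=
  tangentially_degenerate (by simp; omega) hX hsp (secant_two_of_rank hX.1.1 hX.1.2.1 hrank)

end Pool.Agent.Results.MP_e005b4_ag.CurvesTangent
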