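import Pool.Agent.Lib.MP_e005b4_ag.Sec.GrassHyp

/-!
# Linear sections of codimension at most two of Grassmannians of lines

For all skew matrices `B₁`, `B₂` all ranks with respect to the section
`{[u ∧ v] : B₁(u, v) = B₂(u, v) = 0}` of the Grassmannian `G(2, n)` agree with the border ranks.
-/

namespace Pool.Agent.Results.MP_e005b4_ag.GrassmannSection

open Pool.Agent.Lib.MP_e005b4_ag
open scoped LinearAlgebra.Projectivization

/-- Let `B₁`, `B₂` be complex skew `n × n` matrices and `X = grassSec B₁ B₂` the section of the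
Grassmannian `G(2, n)` by the two forms. Every point has `X`-rank equal to its `X`-border rank.
Moreover `X` is a projective variety if all combinations of `B₁` and `B₂` other than the trivial one
have rank at least four, and if `B₂ = 0`, `B₁ ≠ 0` and `n ≥ 3`. -/
theorem result (n : ℕ) (B₁ B₂ : Matrix (Fin n) (Fin n) ℂ) (h₁ : B₁.transpose = -B₁)
    (h₂ : B₂.transpose = -B₂) :
    ((∀ a b : ℂ, (a ≠ 0 ∨ b ≠ 0) → 4 ≤ (a • B₁ + b • B₂).rank) →
      IsProjectiveVariety (grassSec B₁ B₂)) ∧
    (3 ≤ n → B₁ ≠ 0 → B₂ = 0 → IsProjectiveVariety (grassSec B₁ B₂)) ∧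
      ∀ p : PSpace (Fin n × Fin n), xRank (grassSec B₁ B₂) p = xBorderRank (grassSec B₁ B₂) p := by
  refine ⟨grassSec_variety h₁ h₂, fun hn h0 h3 => ?_, grassSec_rank h₁ h₂⟩
  rw [h3]
  exact grassHyp_variety hn h₁ h0

end Pool.Agent.Results.MP_e005b4_ag.GrassmannSection
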