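import Pool.Agent.Lib.MP_e005b4_ag.Sec.Scroll

/-!
# Rational normal scrolls on which rank equals border rank

The rational normal scroll of type `a 0, …, a (k - 1)` (all `a i ≥ 0`, so that cones are included)
is a projective variety, and all its ranks agree with the border ranks if and only if all `a i`
are at most two and at most one of them is equal to two.
-/

namespace Pool.Agent.Results.MP_e005b4_ag.ScrollRank

open Pool.Agent.Lib.MP_e005b4_ag
open scoped LinearAlgebra.Projectivization

/-- Let `k ≥ 1` and `a : Fin k → ℕ`. The scroll `scroll a` is a projective variety, and every point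
has `X`-rank equal to its `X`-border rank for `X = scroll a` if and only if `a i ≤ 2` for all `i`
and `a i = 2` for at most one `i`. -/
theorem result (k : ℕ) (hk : 0 < k) (a : Fin k → ℕ) :
    IsProjectiveVariety (scroll a) ∧
      ((∀ p : PSpace (Σ i : Fin k, Fin (a i + 1)), xRank (scroll a) p = xBorderRank (scroll a) p) ↔
        (∀ i, a i ≤ 2) ∧ ∀ i j, a i = 2 → a j = 2 → i = j) :=
  ⟨scroll_variety a hk, scroll_iff a hk⟩

end Pool.Agent.Results.MP_e005b4_ag.ScrollRank
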